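import Mathlib

set_option autoImplicit false

namespace Pool.Agent.H315R3.ETC

/-- the data `(G, -1, q)` together with the distinguished quaternion `zero` -/
structure QData where
  G : Type
  [grp : CommGroup G]
  Q : Type
  neg : G
  q : G → G → Q
  zero : Q

attribute [instance] QData.grp

/-- the axioms of a quaternionic structure (only the values of `q` matter, `q` need not be onto `Q`) -/
structure IsQuat (S : QData) : Prop where
  exp2 : ∀ a : S.G, a * a = 1
  qs1 : ∀ a : S.G, S.q a (S.neg * a) = S.zero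
  qs2 : ∀ a b : S.G, S.q a b = S.q b a
  qs3 : ∀ a b c : S.G, S.q a b = S.q a c ↔ S.q a (b * c) = S.zero
  qs4 : ∀ a b c d : S.G, S.q a b = S.q c d → ∃ x : S.G, S.q a b = S.q a x ∧ S.q c d = S.q c x

/-- isomorphism of quaternionic structures -/
def Iso (S T : QData) : Prop :=
  ∃ φ : S.G ≃* T.G, φ S.neg = T.neg ∧
    ∀ a b c d : S.G, S.q a b = S.q c d ↔ T.q (φ a) (φ b) = T.q (φ c) (φ d)

/-- the group of order two -/
abbrev C2 : Type := Multiplicative (ZMod 2)

/-- its generator -/
def gen : C2 := Multiplicative.ofAdd 1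

/-- the trivial structure -/
def L0 : QData := ⟨Unit, Unit, 1, fun _ _ => (), ()⟩

/-- order one, `-1 = 1`, `q = 0` -/
def L10 : QData := ⟨C2, Unit, 1, fun _ _ => (), ()⟩

/-- order one, `-1 ≠ 1`, `q = 0` -/
def L11 : QData := ⟨C2, Unit, gen, fun _ _ => (), ()⟩

/-- order one, `-1 ≠ 1`, `q(-1,-1) ≠ 0` -/
def L1 : QData := ⟨C2, Bool, gen, fun a b => decide (a = gen ∧ b = gen), false⟩

/-- local type: finite, nondegenerate, of order at least three, with exactly two quaternions -/
def IsLocal (S : QData) : Prop :=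
  IsQuat S ∧ Finite S.G ∧ 8 ≤ Nat.card S.G ∧
    (∀ a : S.G, (∀ b : S.G, S.q a b = S.zero) → a = 1) ∧
    {t : S.Q | ∃ a b : S.G, S.q a b = t}.ncard = 2

/-- direct product -/
def prod (S T : QData) : QData :=
  ⟨S.G × T.G, S.Q × T.Q, (S.neg, T.neg), fun a b => (S.q a.1 b.1, T.q a.2 b.2), (S.zero, T.zero)⟩

/-- `a ^ β` for `β` in the group of order two -/
def pw {G : Type} [CommGroup G] (a : G) (β : C2) : G := if β = 1 then 1 else a

/-- group extension: `q(a x^α, b x^β) = (q(a,b), (-1)^(αβ) a^β b^α)` -/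
def ext (S : QData) : QData :=
  ⟨S.G × C2, S.Q × S.G, (S.neg, 1),
    fun u v => (S.q u.1 v.1, pw (pw S.neg u.2) v.2 * pw u.1 v.2 * pw v.1 u.2), (S.zero, 1)⟩

/-- structures of elementary type -/
inductive Elem : QData → Prop
  | l0 : Elem L0
  | l10 : Elem L10
  | l11 : Elem L11
  | l1 : Elem L1
  | loc (S : QData) : IsLocal S → Elem S
  | prod (S T : QData) : Elem S → Elem T → Elem (prod S T)
  | ext (S : QData) : Elem S → Elem (ext S)
  | iso (S T : QData) : Elem S → Iso S T → Elem T

end Pool.Agent.H315R3.ETC
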