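import Mathlib
import Pool.Agent.H315R3.ETC.Defs
import Pool.Agent.H315R3.ETC.Friend

set_option autoImplicit false

namespace Pool.Agent.H315R3.ETC

variable {S : QData} (h : IsQuat S) (hn : S.neg = 1)

include h in
lemma mul_cancel (a b : S.G) : a * b * b = a := by rw [mul_assoc, h.exp2, mul_one]

include h in
lemma eq_of_mul (a b : S.G) (e : a * b = 1) : a = b := by
  have := mul_cancel h a b
  rw [e, one_mul] at this
  exact this.symm

include h in
lemma q_one (a : S.G) : S.q a 1 = S.zero := by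
  have := (h.qs3 a 1 1).1 rfl
  rwa [mul_one] at this

include h hn in
lemma q_self (a : S.G) : S.q a a = S.zero := by
  have := h.qs1 a
  rwa [hn, one_mul] at this

include h in
lemma p_mul {a b c : S.G} (h1 : S.q a b = S.zero) (h2 : S.q a c = S.zero) :
    S.q a (b * c) = S.zero := (h.qs3 a b c).1 (h1.trans h2.symm)

include h in
lemma q_shift {a d : S.G} (b : S.G) (h1 : S.q a d = S.zero) : S.q a (d * b) = S.q a b := by
  rw [h.qs3, mul_cancel h]
  exact h1

section friend

variable (htr : ∀ a b c : S.G, b ≠ 1 → S.q a b = S.zero → S.q b c = S.zero → S.q a c = S.zero)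
variable [Finite S.G] {t : S.Q} (ht : t ≠ S.zero)

/-- the vertices -/
abbrev Vt (S : QData) (t : S.Q) : Type := {a : S.G // ∃ x : S.G, S.q a x = t}

/-- the graph of `t` -/
def Gr (h : IsQuat S) (hn : S.neg = 1) (ht : t ≠ S.zero) : SimpleGraph (Vt S t) where
  Adj a b := S.q a.1 b.1 = t
  symm := ⟨fun a b hab => by rw [h.qs2]; exact hab⟩
  loopless := ⟨fun a ha => ht (by rw [← ha]; exact q_self h hn a.1)⟩

include htr in
theorem friendship [Fintype (Vt S t)] : FT.Friendship (Gr h hn ht) := by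
  classical
  intro v w hvw
  rw [Fintype.card_eq_one_iff]
  obtain ⟨x, hx⟩ := v.2
  obtain ⟨y, hy⟩ := w.2
  obtain ⟨z, h1, h2⟩ := h.qs4 v.1 x w.1 y (hx.trans hy.symm)
  rw [hx] at h1
  rw [hy] at h2
  refine ⟨⟨⟨z, v.1, by rw [h.qs2]; exact h1.symm⟩, ?_⟩, ?_⟩
  · rw [SimpleGraph.mem_commonNeighbors]
    exact ⟨h1.symm, h2.symm⟩
  · rintro ⟨⟨z', hz'⟩, hz⟩
    rw [SimpleGraph.mem_commonNeighbors] at hz
    have h3 : S.q v.1 z' = t := hz.1
    have h4 : S.q w.1 z' = t := hz.2
    have e : z' = z := by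
      by_contra hne
      have hne' : z' * z ≠ 1 := fun e => hne (eq_of_mul h _ _ e)
      have h5 : S.q v.1 (z' * z) = S.zero := (h.qs3 _ _ _).1 (h3.trans h1)
      have h6 : S.q w.1 (z' * z) = S.zero := (h.qs3 _ _ _).1 (h4.trans h2)
      have h7 : S.q v.1 w.1 = S.zero := htr _ _ _ hne' h5 (by rw [h.qs2]; exact h6)
      have hvw' : v.1 * w.1 ≠ 1 := fun e => hvw (Subtype.ext (eq_of_mul h _ _ e))
      have h8 : S.q v.1 (v.1 * w.1) = S.zero := p_mul h (q_self h hn _) h7
      have h9 : S.q z (v.1 * w.1) = S.zero := by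
        rw [← h.qs3, h.qs2 z, h.qs2 z]
        exact h1.symm.trans h2
      have h10 : S.q z v.1 = S.zero := htr _ _ _ hvw' h9 (by rw [h.qs2]; exact h8)
      apply ht
      rw [← h10, h.qs2]
      exact h1
    subst e
    rfl

include h hn htr ht in
/-- at most one element with value `t` is not rigid -/
theorem rigid_or (a u : S.G) (hau : S.q a u = t) (d : S.G) (hd : S.q a d = S.zero) (hd1 : d ≠ 1)
    (hda : d ≠ a) : ∀ v : S.G, S.q u v = S.zero → v = 1 ∨ v = u := by
  classical
  have hf : Fintype (Vt S t) := Fintype.ofFinite _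
  have hne : Nonempty (Vt S t) := ⟨⟨a, u, hau⟩⟩
  obtain ⟨w, hw⟩ := FT.friendship_theorem (friendship h hn htr ht)
  have key : ∀ v : Vt S t, v ≠ w → ∀ e : S.G, S.q v.1 e = S.zero → e = 1 ∨ e = v.1 := by
    intro v hvw e he
    by_contra hcon
    push Not at hcon
    have h1 : S.q w.1 v.1 = t := hw v hvw.symm
    have h1' : S.q v.1 w.1 = t := by rw [h.qs2]; exact h1
    have h2 : S.q v.1 (e * w.1) = t := by rw [q_shift h _ he]; exact h1'
    have h3 : S.q w.1 (e * w.1) = t := by
      refine hw ⟨e * w.1, v.1, by rw [h.qs2]; exact h2⟩ ?_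
      intro hc
      have hc' : w.1 = e * w.1 := congrArg Subtype.val hc
      apply hcon.1
      have := mul_cancel h e w.1
      rw [← hc', h.exp2] at this
      exact this.symm
    have h4 : S.q w.1 e = t := by
      refine Eq.trans ?_ h3
      rw [mul_comm e w.1, q_shift h _ (q_self h hn w.1)]
    have h5 : S.q w.1 (e * v.1) = S.zero := (h.qs3 _ _ _).1 (h4.trans h1.symm)
    have h6 : S.q v.1 (e * v.1) = S.zero := p_mul h he (q_self h hn _)
    have h7 : S.q w.1 v.1 = S.zero := htr _ _ _ (fun e' => hcon.2 (eq_of_mul h _ _ e')) h5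
      (by rw [h.qs2]; exact h6)
    exact ht (h1.symm.trans h7)
  have haw : (⟨a, u, hau⟩ : Vt S t) = w := by
    by_contra hc
    rcases key _ hc d hd with h1 | h1
    · exact hd1 h1
    · exact hda h1
  have huw : (⟨u, a, by rw [h.qs2]; exact hau⟩ : Vt S t) ≠ w := by
    intro hc
    rw [← haw] at hc
    have hc' : u = a := congrArg Subtype.val hc
    subst hc'
    exact ht (hau.symm.trans (q_self h hn u))
  intro v hv
  exact key _ huw v hv

/-- the elements orthogonal to `a` -/
def D (h : IsQuat S) (a : S.G) : Subgroup S.G where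
  carrier := {b | S.q a b = S.zero}
  one_mem' := q_one h a
  mul_mem' := fun h1 h2 => p_mul h h1 h2
  inv_mem' := by
    intro x hx
    have : x⁻¹ = x := by
      rw [inv_eq_iff_mul_eq_one]
      exact h.exp2 x
    rw [this]
    exact hx

include h hn htr in
/-- the shape of the orthogonality relation -/
theorem shape : ∃ N : Subgroup S.G, ∀ u v : S.G, S.q u v = S.zero ↔
    (u = 1 ∨ v = 1 ∨ u = v ∨ (u ∈ N ∧ v ∈ N)) := by
  classical
  have q1 : ∀ v, S.q 1 v = S.zero := fun v => by rw [h.qs2]; exact q_one h v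
  by_cases hr : ∀ a : S.G, a ≠ 1 → ∀ d, S.q a d = S.zero → d = 1 ∨ d = a
  · refine ⟨⊥, fun u v => ⟨?_, ?_⟩⟩
    · intro huv
      by_cases hu : u = 1
      · exact Or.inl hu
      · rcases hr u hu v huv with h1 | h1
        · exact Or.inr (Or.inl h1)
        · exact Or.inr (Or.inr (Or.inl h1.symm))
    · rintro (h1 | h1 | h1 | ⟨h1, h2⟩)
      · rw [h1]; exact q1 v
      · rw [h1]; exact q_one h u
      · rw [h1]; exact q_self h hn v
      · rw [Subgroup.mem_bot] at h1
        rw [h1]; exact q1 v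
  · push Not at hr
    obtain ⟨a, ha, d, hd, hd1, hda⟩ := hr
    have hrig : ∀ u : S.G, S.q a u ≠ S.zero → ∀ v : S.G, S.q u v = S.zero → v = 1 ∨ v = u :=
      fun u hu => rigid_or h hn htr hu a u rfl d hd hd1 hda
    refine ⟨D h a, fun u v => ⟨?_, ?_⟩⟩
    · intro huv
      by_contra hcon
      push Not at hcon
      obtain ⟨c1, c2, c3, c4⟩ := hcon
      by_cases hu : S.q a u = S.zero
      · have hv : S.q a v ≠ S.zero := c4 hu
        rcases hrig v hv u (by rw [h.qs2]; exact huv) with h1 | h1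
        · exact c1 h1
        · exact c3 h1
      · rcases hrig u hu v huv with h1 | h1
        · exact c2 h1
        · exact c3 h1.symm
    · rintro (h1 | h1 | h1 | ⟨h1, h2⟩)
      · rw [h1]; exact q1 v
      · rw [h1]; exact q_one h u
      · rw [h1]; exact q_self h hn v
      · have h1' : S.q a u = S.zero := h1
        have h2' : S.q a v = S.zero := h2
        exact htr u a v ha (by rw [h.qs2]; exact h1') h2'

end friend

end Pool.Agent.H315R3.ETC
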