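import Mathlib
import Pool.Agent.H315R3.ETC.Basic

set_option autoImplicit false

namespace Pool.Agent.H315R3.ETC

lemma C2_cases (α : C2) : α = 1 ∨ α = gen := by
  revert α
  unfold gen
  decide

lemma gen_ne : gen ≠ 1 := by
  unfold gen
  decide

lemma gen_mul : gen * gen = 1 := by
  unfold gen
  decide

/-- an index two subgroup containing `N` and avoiding `x` -/
theorem split {G : Type} [CommGroup G] [Finite G] (h2 : ∀ a : G, a * a = 1) (N : Subgroup G)
    (x : G) (hx : x ∉ N) : ∃ K : Subgroup G, N ≤ K ∧ x ∉ K ∧ ∀ y : G, y ∈ K ∨ y * x ∈ K := by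
  have hfin : Set.Finite {K : Subgroup G | N ≤ K ∧ x ∉ K} := Set.toFinite _
  obtain ⟨K, hK⟩ := hfin.exists_maximal ⟨N, le_rfl, hx⟩
  refine ⟨K, hK.prop.1, hK.prop.2, fun y => ?_⟩
  by_cases hy : y ∈ K
  · exact Or.inl hy
  right
  have hle : K ≤ K ⊔ Subgroup.zpowers y := le_sup_left
  have hyK : y ∈ K ⊔ Subgroup.zpowers y :=
    (le_sup_right : Subgroup.zpowers y ≤ _) (Subgroup.mem_zpowers y)
  have hxK : x ∈ K ⊔ Subgroup.zpowers y := by
    by_contra hc
    have := hK.le_of_ge (y := K ⊔ Subgroup.zpowers y) ⟨hK.prop.1.trans hle, hc⟩ hle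
    exact hy (this hyK)
  rw [Subgroup.mem_sup] at hxK
  obtain ⟨k, hk, z, hz, hkz⟩ := hxK
  rw [Subgroup.mem_zpowers_iff] at hz
  obtain ⟨n, rfl⟩ := hz
  have hy2 : y ^ (2 : ℤ) = 1 := by rw [zpow_ofNat, pow_two]; exact h2 y
  rcases Int.even_or_odd' n with ⟨m, rfl | rfl⟩
  · rw [zpow_mul, hy2, one_zpow, mul_one] at hkz
    rw [← hkz] at hK
    exact absurd hk hK.prop.2
  · rw [zpow_add, zpow_mul, hy2, one_zpow, one_mul, zpow_one] at hkz
    rw [← hkz, mul_comm k y, ← mul_assoc, h2, one_mul]
    exact hk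

section splitiso

variable {G : Type} [CommGroup G] (h2 : ∀ a : G, a * a = 1) (K : Subgroup G) (x : G)
  (hx : x ∉ K) (hK : ∀ y : G, y ∈ K ∨ y * x ∈ K)

/-- `x ^ α` -/
def xp {G : Type} [CommGroup G] (x : G) (α : C2) : G := if α = 1 then 1 else x

lemma xp_one : xp x 1 = 1 := if_pos rfl

lemma xp_gen : xp x gen = x := if_neg gen_ne

include h2 in
lemma xp_mul (α β : C2) : xp x (α * β) = xp x α * xp x β := by
  rcases C2_cases α with rfl | rfl
  · rw [one_mul, xp_one, one_mul]
  rcases C2_cases β with rfl | rfl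
  · rw [mul_one, xp_one, mul_one]
  rw [gen_mul, xp_one, xp_gen, h2]

/-- the decomposition of `G` -/
noncomputable def phi : K × C2 ≃* G :=
  MulEquiv.ofBijective
    ({ toFun := fun p => (p.1 : G) * xp x p.2
       map_one' := by
        show ((1 : K) : G) * xp x 1 = 1
        rw [xp_one, Subgroup.coe_one, mul_one]
       map_mul' := by
        intro p r
        show ((p.1 * r.1 : K) : G) * xp x (p.2 * r.2) = _
        rw [xp_mul h2, Subgroup.coe_mul]
        exact mul_mul_mul_comm _ _ _ _ } : K × C2 →* G)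
    (by
      have hx2 : x * x = 1 := h2 x
      constructor
      · rintro ⟨a, α⟩ ⟨b, β⟩ hab
        have hab' : (a : G) * xp x α = b * xp x β := hab
        rcases C2_cases α with rfl | rfl <;> rcases C2_cases β with rfl | rfl
        · rw [xp_one, mul_one, mul_one] at hab'
          rw [Subtype.ext hab']
        · rw [xp_one, xp_gen, mul_one] at hab'
          exfalso
          apply hx
          have : x = (b : G)⁻¹ * a := by rw [hab', inv_mul_cancel_left]
          rw [this]
          exact K.mul_mem (K.inv_mem b.2) a.2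
        · rw [xp_one, xp_gen, mul_one] at hab'
          exfalso
          apply hx
          have : x = (a : G)⁻¹ * b := by rw [← hab', inv_mul_cancel_left]
          rw [this]
          exact K.mul_mem (K.inv_mem a.2) b.2
        · have := mul_right_cancel hab'
          rw [Subtype.ext this]
      · intro y
        rcases hK y with hy | hy
        · refine ⟨(⟨y, hy⟩, 1), ?_⟩
          show y * xp x 1 = y
          rw [xp_one, mul_one]
        · refine ⟨(⟨y * x, hy⟩, gen), ?_⟩
          show (y * x) * xp x gen = y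
          rw [xp_gen, mul_assoc, hx2, mul_one])

lemma phi_apply (p : K × C2) : phi h2 K x hx hK p = (p.1 : G) * xp x p.2 := rfl

end splitiso

/-- restriction to a subgroup (with `-1 = 1`) -/
def restr (S : QData) (K : Subgroup S.G) : QData :=
  ⟨K, S.Q, 1, fun a b => S.q a.1 b.1, S.zero⟩

/-- the degenerate structures with `-1 = 1` -/
theorem degen : ∀ n : ℕ, ∀ S : QData, Finite S.G → Nat.card S.G ≤ n → S.neg = 1 →
    (∀ a : S.G, a * a = 1) → (∀ a b : S.G, S.q a b = S.zero) → Elem S := by
  intro n
  induction n with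
  | zero =>
    intro S hf hc
    have : 0 < Nat.card S.G := Nat.card_pos
    omega
  | succ n ih =>
    intro S hf hc hn h2 h0
    by_cases htriv : ∀ x : S.G, x = 1
    · refine Elem.iso L0 S Elem.l0 ?_
      have hs : Subsingleton S.G := ⟨fun a b => (htriv a).trans (htriv b).symm⟩
      refine ⟨⟨⟨fun _ => 1, fun _ => (), fun _ => rfl, fun a => (htriv a).symm⟩,
        fun _ _ => (mul_one _).symm⟩, hn.symm, fun a b c d => ?_⟩
      rw [h0, h0]
      exact ⟨fun _ => rfl, fun _ => rfl⟩
    · push Not at htriv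
      obtain ⟨x, hx⟩ := htriv
      obtain ⟨K, -, hxK, hK⟩ := split h2 ⊥ x (by rwa [Subgroup.mem_bot])
      have hcard : Nat.card K < Nat.card S.G := by
        apply Set.ncard_lt_card (s := (K : Set S.G))
        intro hu
        exact hxK (by rw [← SetLike.mem_coe, hu]; trivial)
      have hK' : Elem (restr S K) := by
        apply ih (restr S K) (inferInstanceAs (Finite K))
        · show Nat.card K ≤ n
          omega
        · rfl
        · intro a
          exact Subtype.ext (h2 a.1)
        · intro a b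
          exact h0 _ _
      refine Elem.iso _ S (Elem.prod _ _ hK' Elem.l10) ⟨phi h2 K x hxK hK, ?_, ?_⟩
      · show ((1 : K) : S.G) * xp x 1 = S.neg
        rw [hn, xp_one, mul_one, Subgroup.coe_one]
      · intro a b c d
        rw [h0, h0]
        refine ⟨fun _ => rfl, fun _ => ?_⟩
        show (S.q _ _, ()) = (S.q _ _, ())
        rw [h0, h0]

section step

variable {S : QData} (h : IsQuat S) (hn : S.neg = 1) (K : Subgroup S.G) (x : S.G) (hx : x ∉ K)
  (hin : ∀ a b : S.G, a ∈ K → a ≠ 1 → S.q a b = S.zero → b ∈ K)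
  (hout : ∀ a b : S.G, a ∉ K → S.q a b = S.zero → b = 1 ∨ b = a)

include h hx in
lemma kx {a : S.G} (ha : a ∈ K) : a * x ∉ K := by
  intro hc
  apply hx
  have := K.mul_mem ha hc
  rwa [← mul_assoc, h.exp2, one_mul] at this

include h hx hin hout in
lemma L12 {a b c d : S.G} (ha : a ∈ K) (hb : b ∈ K) (hc : c ∈ K) (hd : d ∈ K) :
    S.q a b = S.q (c * x) d ↔ (S.q a b = S.q c d ∧ 1 = d) := by
  constructor
  · intro e
    have hd1 : d = 1 := by
      by_contra hd1
      obtain ⟨y, e1, e2⟩ := h.qs4 _ _ _ _ e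
      have h1 : S.q (c * x) (d * y) = S.zero := (h.qs3 _ _ _).1 e2
      rcases hout _ _ (kx h K x hx hc) h1 with h3 | h3
      · have hy : d = y := eq_of_mul h _ _ h3
        subst hy
        have h4 : S.q d a = S.q d (c * x) := by
          rw [h.qs2 d a, h.qs2 d (c * x), ← e1]; exact e
        have h5 := (h.qs3 _ _ _).1 h4
        have h6 := hin _ _ hd hd1 h5
        apply kx h K x hx hc
        have := K.mul_mem ha h6
        rwa [← mul_assoc, h.exp2, one_mul] at this
      · have hy : y ∉ K := by
          intro hy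
          apply kx h K x hx hc
          rw [← h3]
          exact K.mul_mem hd hy
        by_cases ha1 : a = 1
        · have h4 : S.q a b = S.zero := by rw [ha1, h.qs2]; exact q_one h b
          rw [h4] at e
          rcases hout _ _ (kx h K x hx hc) e.symm with h5 | h5
          · exact hd1 h5
          · exact kx h K x hx hc (h5 ▸ hd)
        · have h4 := hin _ _ ha ha1 ((h.qs3 _ _ _).1 e1)
          apply hy
          have := K.mul_mem hb h4
          rwa [← mul_assoc, h.exp2, one_mul] at this
    subst hd1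
    refine ⟨?_, rfl⟩
    rw [e, q_one h, q_one h]
  · rintro ⟨e1, rfl⟩
    rw [e1, q_one h, q_one h]

include h hx hin hout in
lemma L22 {a b c d : S.G} (ha : a ∈ K) (hb : b ∈ K) (hc : c ∈ K) (hd : d ∈ K) :
    S.q (a * x) b = S.q (c * x) d ↔ (S.q a b = S.q c d ∧ b = d) := by
  have hax := kx h K x hx ha
  have hcx := kx h K x hx hc
  constructor
  · intro e
    have hbd : b = d := by
      by_cases hb1 : b = 1
      · rw [hb1, q_one h] at e
        rcases hout _ _ hcx e.symm with h5 | h5
        · rw [hb1, h5]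
        · exact absurd (h5 ▸ hd) hcx
      · rw [h.qs2 (a * x), h.qs2 (c * x)] at e
        obtain ⟨y, e1, e2⟩ := h.qs4 _ _ _ _ e
        have h1 := hin _ _ hb hb1 ((h.qs3 _ _ _).1 e1)
        have hy : y ∉ K := by
          intro hy
          apply hax
          have := K.mul_mem h1 hy
          rwa [mul_assoc (a * x), h.exp2, mul_one] at this
        have h2 : S.q y b = S.q y d := by
          rw [h.qs2 y b, h.qs2 y d, ← e1, ← e2]; exact e
        rcases hout _ _ hy ((h.qs3 _ _ _).1 h2) with h3 | h3
        · exact eq_of_mul h _ _ h3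
        · exact absurd (h3 ▸ K.mul_mem hb hd) hy
    subst hbd
    refine ⟨?_, rfl⟩
    rw [h.qs2 (a * x), h.qs2 (c * x), h.qs3] at e
    rw [h.qs2 a, h.qs2 c, h.qs3]
    have : a * x * (c * x) = a * c := by
      rw [mul_mul_mul_comm, h.exp2 x, mul_one]
    rwa [this] at e
  · rintro ⟨e, rfl⟩
    rw [h.qs2 (a * x), h.qs2 (c * x), h.qs3]
    rw [h.qs2 a, h.qs2 c, h.qs3] at e
    have : a * x * (c * x) = a * c := by
      rw [mul_mul_mul_comm, h.exp2 x, mul_one]
    rwa [this]

include h hn in
lemma nf (p r : K × C2) :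
    (∃ a b : K, (ext (restr S K)).q p r = (S.q a b, 1) ∧
      S.q ((p.1 : S.G) * xp x p.2) ((r.1 : S.G) * xp x r.2) = S.q a b) ∨
    (∃ a b : K, (ext (restr S K)).q p r = (S.q a b, b) ∧
      S.q ((p.1 : S.G) * xp x p.2) ((r.1 : S.G) * xp x r.2) = S.q (a * x) b) := by
  obtain ⟨a, α⟩ := p
  obtain ⟨b, β⟩ := r
  rcases C2_cases α with rfl | rfl <;> rcases C2_cases β with rfl | rfl
  · left
    refine ⟨a, b, ?_, ?_⟩
    · show (S.q a b, pw (pw (1 : K) 1) 1 * pw a 1 * pw b 1) = _
      simp [pw]
      rfl
    · simp [xp]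
  · right
    refine ⟨b, a, ?_, ?_⟩
    · show (S.q a b, pw (pw (1 : K) 1) gen * pw a gen * pw b 1) = _
      simp [pw, gen_ne, h.qs2 (a : S.G) b]
    · simp only [xp, if_pos, if_neg gen_ne, mul_one]
      exact h.qs2 _ _
  · right
    refine ⟨a, b, ?_, ?_⟩
    · show (S.q a b, pw (pw (1 : K) gen) 1 * pw a 1 * pw b gen) = _
      simp [pw, gen_ne]
    · simp [xp, gen_ne]
  · right
    refine ⟨a, a * b, ?_, ?_⟩
    · show (S.q a b, pw (pw (1 : K) gen) gen * pw a gen * pw b gen) = _
      have : S.q (a : S.G) ((a * b : K) : S.G) = S.q a b := by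
        rw [Subgroup.coe_mul]
        exact q_shift h _ (q_self h hn _)
      rw [this]
      simp [pw, gen_ne]
    · simp only [xp, if_neg gen_ne]
      have : ((a * b : K) : S.G) = (a * x) * (b * x) := by
        rw [Subgroup.coe_mul, mul_mul_mul_comm, h.exp2 x, mul_one]
      rw [this]
      exact (q_shift h _ (q_self h hn _)).symm

end step

theorem shaped : ∀ n : ℕ, ∀ S : QData, IsQuat S → Finite S.G → Nat.card S.G ≤ n → S.neg = 1 →
    (∃ N : Subgroup S.G, ∀ u v : S.G, S.q u v = S.zero ↔
      (u = 1 ∨ v = 1 ∨ u = v ∨ (u ∈ N ∧ v ∈ N))) → Elem S := by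
  intro n
  induction n with
  | zero =>
    intro S h hf hc
    have : 0 < Nat.card S.G := Nat.card_pos
    omega
  | succ n ih =>
    intro S h hf hc hn ⟨N, hN⟩
    by_cases htop : ∀ x : S.G, x ∈ N
    · refine degen _ S hf le_rfl hn h.exp2 fun a b => ?_
      rw [hN]
      exact Or.inr (Or.inr (Or.inr ⟨htop a, htop b⟩))
    · push Not at htop
      obtain ⟨x, hx⟩ := htop
      obtain ⟨K, hNK, hxK, hK⟩ := split h.exp2 N x hx
      have hcard : Nat.card K < Nat.card S.G := by
        apply Set.ncard_lt_card (s := (K : Set S.G))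
        intro hu
        exact hxK (by rw [← SetLike.mem_coe, hu]; trivial)
      have hin : ∀ a b : S.G, a ∈ K → a ≠ 1 → S.q a b = S.zero → b ∈ K := by
        intro a b ha ha1 hab
        rw [hN] at hab
        rcases hab with h1 | h1 | h1 | ⟨h1, h3⟩
        · exact absurd h1 ha1
        · rw [h1]; exact K.one_mem
        · rw [← h1]; exact ha
        · exact hNK h3
      have hout : ∀ a b : S.G, a ∉ K → S.q a b = S.zero → b = 1 ∨ b = a := by
        intro a b ha hab
        rw [hN] at hab
        rcases hab with h1 | h1 | h1 | ⟨h1, h3⟩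
        · exact absurd (h1 ▸ K.one_mem) ha
        · exact Or.inl h1
        · exact Or.inr h1.symm
        · exact absurd (hNK h1) ha
      have hR : IsQuat (restr S K) := by
        constructor
        · intro a
          exact Subtype.ext (h.exp2 a.1)
        · intro (a : K)
          show S.q a.1 ((1 * a : K) : S.G) = S.zero
          rw [one_mul]
          exact q_self h hn _
        · intro a b
          exact h.qs2 _ _
        · intro a b c
          exact h.qs3 _ _ _
        · intro (a : K) (b : K) (c : K) (d : K) e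
          by_cases ha1 : (a : S.G) = 1
          · refine ⟨1, ?_, ?_⟩
            · show S.q a.1 b.1 = S.q a.1 1
              rw [q_one h, ha1, h.qs2, q_one h]
            · show S.q c.1 d.1 = S.q c.1 1
              have e' : S.q a.1 b.1 = S.q c.1 d.1 := e
              rw [← e', q_one h, ha1, h.qs2, q_one h]
          · obtain ⟨y, h1, h3⟩ := h.qs4 _ _ _ _ e
            have h4 := hin _ _ a.2 ha1 ((h.qs3 _ _ _).1 h1)
            have hy : y ∈ K := by
              have := K.mul_mem b.2 h4
              rwa [← mul_assoc, h.exp2, one_mul] at this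
            exact ⟨⟨y, hy⟩, h1, h3⟩
      have hE : Elem (restr S K) := by
        refine ih (restr S K) hR (inferInstanceAs (Finite K)) ?_ rfl ⟨N.subgroupOf K, ?_⟩
        · show Nat.card K ≤ n
          omega
        · intro (u : K) (v : K)
          show S.q u.1 v.1 = S.zero ↔
            (u = 1 ∨ v = 1 ∨ u = v ∨ (u ∈ N.subgroupOf K ∧ v ∈ N.subgroupOf K))
          rw [hN, Subgroup.mem_subgroupOf, Subgroup.mem_subgroupOf]
          simp only [Subtype.ext_iff]
          rfl
      refine Elem.iso _ S (Elem.ext _ hE) ⟨phi h.exp2 K x hxK hK, ?_, ?_⟩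
      · show ((1 : K) : S.G) * xp x 1 = S.neg
        rw [hn, xp_one, mul_one, Subgroup.coe_one]
      · intro (p : K × C2) (r : K × C2) (p' : K × C2) (r' : K × C2)
        show _ ↔ S.q ((p.1 : S.G) * xp x p.2) ((r.1 : S.G) * xp x r.2) =
          S.q ((p'.1 : S.G) * xp x p'.2) ((r'.1 : S.G) * xp x r'.2)
        rcases nf h hn K x p r with ⟨a, b, e1, e2⟩ | ⟨a, b, e1, e2⟩ <;>
          rcases nf h hn K x p' r' with ⟨c, d, e3, e4⟩ | ⟨c, d, e3, e4⟩
        · rw [e1, e2, e3, e4]
          refine Iff.trans (Prod.mk_inj (β := K)) ?_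
          exact ⟨fun e => e.1, fun e => ⟨e, rfl⟩⟩
        · rw [e1, e2, e3, e4]
          refine Iff.trans (Prod.mk_inj (β := K)) ?_
          rw [L12 h K x hxK hin hout a.2 b.2 c.2 d.2]
          exact and_congr_right fun _ => Subtype.ext_iff
        · rw [e1, e2, e3, e4]
          refine Iff.trans (Prod.mk_inj (β := K)) ?_
          rw [eq_comm (a := S.q (a * x) b), L12 h K x hxK hin hout c.2 d.2 a.2 b.2]
          constructor
          · rintro ⟨h1, h3⟩
            exact ⟨h1.symm, (congrArg Subtype.val h3).symm⟩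
          · rintro ⟨h1, h3⟩
            exact ⟨h1.symm, Subtype.ext h3.symm⟩
        · rw [e1, e2, e3, e4]
          refine Iff.trans (Prod.mk_inj (β := K)) ?_
          rw [L22 h K x hxK hin hout a.2 b.2 c.2 d.2]
          exact and_congr_right fun _ => Subtype.ext_iff

theorem main (S : QData) (h : IsQuat S) (hf : Finite S.G) (hn : S.neg = 1)
    (htr : ∀ a b c : S.G, b ≠ 1 → S.q a b = S.zero → S.q b c = S.zero → S.q a c = S.zero) :
    Elem S :=
  shaped _ S h hf le_rfl hn (shape h hn htr)

end Pool.Agent.H315R3.ETC
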