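import Mathlib
import Pool.Agent.H315R3.ETC.Main

set_option autoImplicit false

namespace Pool.Agent.H315R3.ETC

variable {S : QData} (h : IsQuat S) (hn : S.neg = 1)

/-- rigid elements -/
def Rg (S : QData) (a : S.G) : Prop := ∀ e : S.G, S.q a e = S.zero → e = 1 ∨ e = a

include h in
lemma q_one' (a : S.G) : S.q 1 a = S.zero := by rw [h.qs2]; exact q_one h a

include h in
/-- common value -/
lemma common {a b u v : S.G} (e : S.q a b = S.q u v) :
    ∃ y, S.q a y = S.q a b ∧ S.q u y = S.q a b := by
  obtain ⟨y, h1, h2⟩ := h.qs4 _ _ _ _ e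
  exact ⟨y, h1.symm, by rw [e]; exact h2.symm⟩

section pair

variable {a b : S.G} (hx : Rg S (a * b)) (ha1 : a ≠ 1) (hb1 : b ≠ 1)

include h hn hx ha1 hb1

lemma cap {g : S.G} (hab : a ≠ b) (h1 : S.q a g = S.zero) (h2 : S.q b g = S.zero) : g = 1 := by
  have h3 : S.q g (a * b) = S.zero := p_mul h (by rw [h.qs2]; exact h1) (by rw [h.qs2]; exact h2)
  rw [h.qs2] at h3
  rcases hx g h3 with h4 | h4
  · exact h4
  · exfalso
    subst h4
    have h5 : S.q (a * b) a = S.zero := by rw [h.qs2]; exact h1
    rcases hx a h5 with h6 | h6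
    · exact ha1 h6
    · apply hb1
      have := h6.symm
      rwa [mul_eq_left] at this

lemma ab_ne (hab : a ≠ b) : S.q a b ≠ S.zero := by
  intro h1
  exact hb1 (cap h hn hx ha1 hb1 hab h1 (q_self h hn b))

lemma stepA (hab : a ≠ b) {e : S.G} (he : S.q b e = S.zero) (he1 : e ≠ 1) (heb : e ≠ b) :
    Rg S (a * e) := by
  have ht := ab_ne h hn hx ha1 hb1 hab
  have hba : S.q b a = S.q a b := h.qs2 _ _
  have hvb : S.q b (a * e) = S.q a b := by
    rw [mul_comm, q_shift h _ he, hba]
  have hvb' : S.q (a * e) b = S.q a b := by rw [h.qs2]; exact hvb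
  have hae : S.q a e ≠ S.zero := fun h1 => he1 (cap h hn hx ha1 hb1 hab h1 he)
  have hva : S.q (a * e) a ≠ S.zero := by
    rw [h.qs2, q_shift h _ (q_self h hn a)]
    exact hae
  have hxa : S.q (a * b) a = S.q a b := by
    rw [h.qs2, q_shift h _ (q_self h hn a)]
  have hxb : S.q (a * b) b = S.q a b := by
    rw [h.qs2, mul_comm, q_shift h _ (q_self h hn b), hba]
  -- elements orthogonal to `v`
  have key : ∀ g, S.q (a * e) g = S.zero → S.q a g = S.zero ∨ S.q b (a * g) = S.zero := by
    intro g hg
    have h1 : S.q (a * e) (g * b) = S.q a b := by rw [q_shift h _ hg]; exact hvb'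
    have h2 : S.q (g * b) (a * e) = S.q (a * b) a := by rw [h.qs2, h1, hxa]
    obtain ⟨y, h3, h4⟩ := common h h2
    rw [h2, hxa] at h3 h4
    have h5 : S.q (a * b) (y * a) = S.zero := by
      rw [← h.qs3, h4, hxa]
    rcases hx _ h5 with h6 | h6
    · left
      have hya : y = a := eq_of_mul h _ _ h6
      subst hya
      have h7 : S.q y (g * b) = S.q y b := by rw [h.qs2 y (g * b)]; exact h3
      have h8 := (h.qs3 _ _ _).1 h7
      rwa [mul_cancel h] at h8
    · right
      have hyb : y = b := by
        have := congrArg (· * a) h6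
        simp only [mul_cancel h] at this
        rw [this, mul_comm a b, mul_cancel h]
      subst hyb
      have h7 : S.q y (g * y) = S.q y a := by rw [h.qs2 y (g * y), h3, hba]
      rw [mul_comm g y, q_shift h _ (q_self h hn y)] at h7
      have h8 := (h.qs3 _ _ _).1 h7
      rwa [mul_comm] at h8
  -- nothing nontrivial orthogonal to both `v` and `b`
  have hB : ∀ g, S.q (a * e) g = S.zero → S.q b g = S.zero → g = 1 := by
    intro g hg hbg
    rcases key g hg with h1 | h1
    · exact cap h hn hx ha1 hb1 hab h1 hbg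
    · exfalso
      have h2 := p_mul h h1 hbg
      rw [mul_cancel h] at h2
      exact ht (by rw [← h2, hba])
  have hbe : S.q b e = S.zero := he
  have key2 : ∀ g, S.q (a * e) g = S.zero → S.q a g = S.zero ∨ g = a * e := by
    intro g hg
    rcases key g hg with h1 | h1
    · exact Or.inl h1
    · right
      -- `g * (a * e)` is orthogonal to both
      have h2 : S.q (a * e) (g * (a * e)) = S.zero := p_mul h hg (q_self h hn _)
      have h3 : S.q b (g * (a * e)) = S.zero := by
        have := p_mul h h1 hbe
        rwa [mul_comm a g, mul_assoc] at this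
      exact eq_of_mul h _ _ (hB _ h2 h3)
  intro g hg
  rcases key2 g hg with h1 | h1
  · left
    have h2 : S.q (a * e) (g * (a * e)) = S.zero := p_mul h hg (q_self h hn _)
    rcases key2 _ h2 with h3 | h3
    · exfalso
      have h4 := p_mul h h1 h3
      have h5 : g * (g * (a * e)) = a * e := by rw [← mul_assoc, h.exp2, one_mul]
      rw [h5, h.qs2] at h4
      exact hva h4
    · have := congrArg (· * (a * e)) h3
      simp only [mul_cancel h] at this
      rw [this, h.exp2]
  · exact Or.inr h1

lemma stepB (hab : a ≠ b) {d : S.G} (hd : S.q b d = S.zero) (hd1 : d ≠ 1) (hdb : d ≠ b) :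
    Rg S a := by
  have hba : S.q b a = S.q a b := h.qs2 _ _
  have hr : S.q a d ≠ S.zero := fun h1 => hd1 (cap h hn hx ha1 hb1 hab h1 hd)
  have hbd : S.q b (b * d) = S.zero := p_mul h (q_self h hn b) hd
  have hbd1 : b * d ≠ 1 := fun e => hdb (eq_of_mul h _ _ e).symm
  have hbdb : b * d ≠ b := by
    intro e
    apply hd1
    rwa [mul_eq_left] at e
  have hxd : Rg S (a * (b * d)) := stepA h hn hx ha1 hb1 hab hbd hbd1 hbdb
  have hxr : S.q (a * b) d = S.q a d := by
    rw [h.qs2, mul_comm, q_shift h _ (by rw [h.qs2]; exact hd), h.qs2]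
  have key : ∀ g, S.q a g = S.zero → g = 1 ∨ S.q d (a * g) = S.zero := by
    intro g hg
    have h1 : S.q a (g * d) = S.q a d := q_shift h _ hg
    have h2 : S.q (g * d) a = S.q (a * b) d := by rw [h.qs2, h1, hxr]
    obtain ⟨y, h3, h4⟩ := common h h2
    rw [h2, hxr] at h3 h4
    have h5 : S.q (a * b) (y * d) = S.zero := by rw [← h.qs3, h4, hxr]
    rcases hx _ h5 with h6 | h6
    · right
      have hy : y = d := eq_of_mul h _ _ h6
      subst hy
      have h7 : S.q y (g * y) = S.q y a := by rw [h.qs2 y (g * y), h3, h.qs2]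
      rw [mul_comm g y, q_shift h _ (q_self h hn y)] at h7
      have h8 := (h.qs3 _ _ _).1 h7
      rwa [mul_comm] at h8
    · -- y = a b d
      have hy : y = a * b * d := by
        have := congrArg (· * d) h6
        simp only [mul_cancel h] at this
        exact this
      have hy' : a * (b * d) = y := by rw [hy, mul_assoc]
      rw [hy'] at hxd
      have h7 : S.q y (a * b) = S.q a d := by
        have e1 : S.q (a * b) y = S.q a d := h4
        rw [h.qs2]; exact e1
      have h8 : S.q y (g * d) = S.q y (a * b) := by rw [h7, h.qs2]; exact h3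
      have h9 := (h.qs3 _ _ _).1 h8
      rcases hxd _ h9 with h10 | h10
      · exfalso
        have hg' : g = a * (b * d) := by
          have e1 : g * d * (a * b) = g * (a * (b * d)) := by
            rw [mul_assoc, mul_comm d (a * b), mul_assoc]
          rw [e1] at h10
          exact eq_of_mul h _ _ h10
        rw [hg', q_shift h _ (q_self h hn a)] at hg
        exact hbd1 (cap h hn hx ha1 hb1 hab hg hbd)
      · left
        have e1 : g * d * (a * b) = g * y := by
          rw [hy, mul_assoc, mul_comm d (a * b)]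
        rw [e1] at h10
        rwa [mul_eq_right] at h10
  intro g hg
  by_contra hcon
  push Not at hcon
  have h1 := (key g hg).resolve_left hcon.1
  have h2 : S.q a (a * g) = S.zero := p_mul h (q_self h hn a) hg
  have h3 : a * g ≠ 1 := fun e => hcon.2 (eq_of_mul h _ _ e).symm
  have h4 := (key _ h2).resolve_left h3
  have h5 : a * (a * g) = g := by rw [← mul_assoc, h.exp2, one_mul]
  rw [h5] at h4
  have h6 := p_mul h h1 h4
  rw [mul_cancel h, h.qs2] at h6
  exact hr h6

end pair

/-- the nonrigid elements and `1` form a subgroup -/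
def basic (h : IsQuat S) (hn : S.neg = 1) : Subgroup S.G where
  carrier := {a | a = 1 ∨ ¬ Rg S a}
  one_mem' := Or.inl rfl
  mul_mem' := by
    rintro a b ha hb
    rcases ha with ha | ha
    · rw [ha, one_mul]; exact hb
    rcases hb with hb | hb
    · rw [hb, mul_one]; exact Or.inr ha
    by_cases hab : a = b
    · left; rw [hab, h.exp2]
    right
    intro hx
    have ha1 : a ≠ 1 := by
      intro e
      subst e
      rw [one_mul] at hx
      exact hb hx
    have hb1 : b ≠ 1 := by
      intro e
      subst e
      rw [mul_one] at hx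
      exact ha hx
    have hb' := hb
    unfold Rg at hb'
    push Not at hb'
    obtain ⟨d, hd, hd1, hdb⟩ := hb'
    exact ha (stepB h hn hx ha1 hb1 hab hd hd1 hdb)
  inv_mem' := by
    intro x hx
    have : x⁻¹ = x := by
      rw [inv_eq_iff_mul_eq_one]
      exact h.exp2 x
    rw [this]
    exact hx

end Pool.Agent.H315R3.ETC
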