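import Mathlib
import Pool.Agent.H315R3.ETC.Rigid

set_option autoImplicit false

namespace Pool.Agent.H315R3.ETC

/-- splitting off a group extension -/
theorem ext_iso {S : QData} (h : IsQuat S) (hn : S.neg = 1) (K : Subgroup S.G) (x : S.G)
    (hxK : x ∉ K) (hK : ∀ y : S.G, y ∈ K ∨ y * x ∈ K)
    (hin : ∀ a b : S.G, a ∈ K → a ≠ 1 → S.q a b = S.zero → b ∈ K)
    (hout : ∀ a b : S.G, a ∉ K → S.q a b = S.zero → b = 1 ∨ b = a) :
    IsQuat (restr S K) ∧ Iso (ext (restr S K)) S := by
  constructor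
  · constructor
    · intro a
      exact Subtype.ext (h.exp2 a.1)
    · intro (a : K)
      show S.q a.1 ((1 * a : K) : S.G) = S.zero
      rw [one_mul]
      exact q_self h hn _
    · intro a b
      exact h.qs2 _ _
    · intro a b c
      exact h.qs3 _ _ _
    · intro (a : K) (b : K) (c : K) (d : K) e
      by_cases ha1 : (a : S.G) = 1
      · refine ⟨1, ?_, ?_⟩
        · show S.q a.1 b.1 = S.q a.1 1
          rw [q_one h, ha1, h.qs2, q_one h]
        · show S.q c.1 d.1 = S.q c.1 1
          have e' : S.q a.1 b.1 = S.q c.1 d.1 := e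
          rw [← e', q_one h, ha1, h.qs2, q_one h]
      · obtain ⟨y, h1, h3⟩ := h.qs4 _ _ _ _ e
        have h4 := hin _ _ a.2 ha1 ((h.qs3 _ _ _).1 h1)
        have hy : y ∈ K := by
          have := K.mul_mem b.2 h4
          rwa [← mul_assoc, h.exp2, one_mul] at this
        exact ⟨⟨y, hy⟩, h1, h3⟩
  · refine ⟨phi h.exp2 K x hxK hK, ?_, ?_⟩
    · show ((1 : K) : S.G) * xp x 1 = S.neg
      rw [hn, xp_one, mul_one, Subgroup.coe_one]
    · intro (p : K × C2) (r : K × C2) (p' : K × C2) (r' : K × C2)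
      show _ ↔ S.q ((p.1 : S.G) * xp x p.2) ((r.1 : S.G) * xp x r.2) =
        S.q ((p'.1 : S.G) * xp x p'.2) ((r'.1 : S.G) * xp x r'.2)
      rcases nf h hn K x p r with ⟨a, b, e1, e2⟩ | ⟨a, b, e1, e2⟩ <;>
        rcases nf h hn K x p' r' with ⟨c, d, e3, e4⟩ | ⟨c, d, e3, e4⟩
      · rw [e1, e2, e3, e4]
        refine Iff.trans (Prod.mk_inj (β := K)) ?_
        exact ⟨fun e => e.1, fun e => ⟨e, rfl⟩⟩
      · rw [e1, e2, e3, e4]
        refine Iff.trans (Prod.mk_inj (β := K)) ?_
        rw [L12 h K x hxK hin hout a.2 b.2 c.2 d.2]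
        exact and_congr_right fun _ => Subtype.ext_iff
      · rw [e1, e2, e3, e4]
        refine Iff.trans (Prod.mk_inj (β := K)) ?_
        rw [eq_comm (a := S.q (a * x) b), L12 h K x hxK hin hout c.2 d.2 a.2 b.2]
        constructor
        · rintro ⟨h1, h3⟩
          exact ⟨h1.symm, (congrArg Subtype.val h3).symm⟩
        · rintro ⟨h1, h3⟩
          exact ⟨h1.symm, Subtype.ext h3.symm⟩
      · rw [e1, e2, e3, e4]
        refine Iff.trans (Prod.mk_inj (β := K)) ?_
        rw [L22 h K x hxK hin hout a.2 b.2 c.2 d.2]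
        exact and_congr_right fun _ => Subtype.ext_iff

lemma card_C2 : Nat.card C2 = 2 := by
  show Nat.card (Multiplicative (ZMod 2)) = 2
  simp

/-- a rigid element splits off -/
theorem rigid_ext {S : QData} (h : IsQuat S) (hn : S.neg = 1) [Finite S.G] {x : S.G}
    (hx1 : x ≠ 1) (hx : Rg S x) : ∃ K : Subgroup S.G, 2 * Nat.card K = Nat.card S.G ∧
      IsQuat (restr S K) ∧ Iso (ext (restr S K)) S := by
  obtain ⟨K, hNK, hxK, hK⟩ := split h.exp2 (basic h hn) x (by
    rintro (h1 | h1)
    · exact hx1 h1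
    · exact h1 hx)
  have hrg : ∀ a : S.G, a ∉ K → Rg S a := by
    intro a ha
    by_contra hc
    exact ha (hNK (Or.inr hc))
  refine ⟨K, ?_, ext_iso h hn K x hxK hK ?_ ?_⟩
  · have := Nat.card_congr (phi h.exp2 K x hxK hK).toEquiv
    rw [Nat.card_prod, card_C2] at this
    omega
  · intro a b ha ha1 hab
    by_cases hr : Rg S a
    · rcases hr b hab with h1 | h1
      · rw [h1]; exact K.one_mem
      · rw [h1]; exact ha
    · by_cases hba : b = a
      · rw [hba]; exact ha
      · apply hNK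
        right
        intro hb
        rcases hb a (by rw [h.qs2]; exact hab) with h1 | h1
        · exact ha1 h1
        · exact hba h1.symm
  · intro a b ha hab
    exact hrg a ha b hab

/-- the slots of `t` have pairwise trivially meeting orthogonal groups -/
def Indep (S : QData) (t : S.Q) : Prop :=
  ∀ u v : S.G, u ≠ v → (∃ x, S.q u x = t) → (∃ y, S.q v y = t) →
    ∀ d : S.G, S.q u d = S.zero → S.q v d = S.zero → d = 1

theorem friendship2 {S : QData} (h : IsQuat S) (hn : S.neg = 1) {t : S.Q} (ht : t ≠ S.zero)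
    (hI : Indep S t) [Fintype (Vt S t)] : FT.Friendship (Gr h hn ht) := by
  classical
  intro v w hvw
  rw [Fintype.card_eq_one_iff]
  obtain ⟨x, hx⟩ := v.2
  obtain ⟨y, hy⟩ := w.2
  obtain ⟨z, h1, h2⟩ := h.qs4 v.1 x w.1 y (hx.trans hy.symm)
  rw [hx] at h1
  rw [hy] at h2
  refine ⟨⟨⟨z, v.1, by rw [h.qs2]; exact h1.symm⟩, ?_⟩, ?_⟩
  · rw [SimpleGraph.mem_commonNeighbors]
    exact ⟨h1.symm, h2.symm⟩
  · rintro ⟨⟨z', hz'⟩, hz⟩
    rw [SimpleGraph.mem_commonNeighbors] at hz
    have h3 : S.q v.1 z' = t := hz.1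
    have h4 : S.q w.1 z' = t := hz.2
    have e : z' = z := by
      apply eq_of_mul h
      exact hI v.1 w.1 (fun e => hvw (Subtype.ext e)) v.2 w.2 _
        ((h.qs3 _ _ _).1 (h3.trans h1)) ((h.qs3 _ _ _).1 (h4.trans h2))
    subst e
    rfl

/-- an independent slot set produces a rigid element -/
theorem exists_rigid {S : QData} (h : IsQuat S) (hn : S.neg = 1) [Finite S.G] {t : S.Q}
    (ht : t ≠ S.zero) {a b : S.G} (hab : S.q a b = t) (hI : Indep S t) :
    ∃ x : S.G, x ≠ 1 ∧ Rg S x := by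
  classical
  have hf : Fintype (Vt S t) := Fintype.ofFinite _
  have hba : S.q b a = t := by rw [h.qs2]; exact hab
  have hne : Nonempty (Vt S t) := ⟨⟨a, b, hab⟩⟩
  obtain ⟨w, hw⟩ := FT.friendship_theorem (friendship2 h hn ht hI)
  have key : ∀ v : Vt S t, v ≠ w → ∀ e : S.G, S.q v.1 e = S.zero → e = 1 ∨ e = v.1 := by
    intro v hvw e he
    by_contra hcon
    push Not at hcon
    have h1 : S.q w.1 v.1 = t := hw v hvw.symm
    have h1' : S.q v.1 w.1 = t := by rw [h.qs2]; exact h1
    have h2 : S.q v.1 (e * w.1) = t := by rw [q_shift h _ he]; exact h1'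
    have h3 : S.q w.1 (e * w.1) = t := by
      refine hw ⟨e * w.1, v.1, by rw [h.qs2]; exact h2⟩ ?_
      intro hc
      have hc' : w.1 = e * w.1 := congrArg Subtype.val hc
      apply hcon.1
      have := mul_cancel h e w.1
      rw [← hc', h.exp2] at this
      exact this.symm
    have h4 : S.q w.1 e = t := by
      refine Eq.trans ?_ h3
      rw [mul_comm e w.1, q_shift h _ (q_self h hn w.1)]
    have h5 : S.q w.1 (e * v.1) = S.zero := (h.qs3 _ _ _).1 (h4.trans h1.symm)
    have h6 : S.q v.1 (e * v.1) = S.zero := p_mul h he (q_self h hn _)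
    have h7 := hI w.1 v.1 (fun e' => hvw (Subtype.ext e'.symm)) w.2 v.2 _ h5 h6
    exact hcon.2 (eq_of_mul h _ _ h7)
  have hne1 : ∀ u v : S.G, S.q u v = t → u ≠ 1 := by
    intro u v huv hu
    rw [hu, q_one' h] at huv
    exact ht huv.symm
  by_cases haw : (⟨a, b, hab⟩ : Vt S t) = w
  · refine ⟨b, hne1 b a hba, key ⟨b, a, hba⟩ ?_⟩
    intro hc
    rw [← haw] at hc
    have hc' : b = a := congrArg Subtype.val hc
    subst hc'
    exact ht (hab.symm.trans (q_self h hn b))
  · exact ⟨a, hne1 a b hab, key _ haw⟩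

/-- recognition, one direction -/
theorem rec_mp {S : QData} (h : IsQuat S) (hn : S.neg = 1) (hf : Finite S.G) {t : S.Q}
    (ht : t ≠ S.zero) {a b : S.G} (hab : S.q a b = t) (hI : Indep S t) :
    ∃ T : QData, IsQuat T ∧ T.neg = 1 ∧ 2 * Nat.card T.G = Nat.card S.G ∧ Iso (ext T) S := by
  obtain ⟨x, hx1, hx⟩ := exists_rigid h hn ht hab hI
  obtain ⟨K, hc, h1, h2⟩ := rigid_ext h hn hx1 hx
  exact ⟨restr S K, h1, rfl, hc, h2⟩

/-- transitivity gives independence -/
theorem indep_of_trans {S : QData} (h : IsQuat S) (hn : S.neg = 1)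
    (htr : ∀ a b c : S.G, b ≠ 1 → S.q a b = S.zero → S.q b c = S.zero → S.q a c = S.zero)
    {t : S.Q} (ht : t ≠ S.zero) : Indep S t := by
  rintro v w hvw ⟨x, hx⟩ ⟨y, hy⟩ d h1 h2
  by_contra hd
  obtain ⟨z, h3, h4⟩ := common h (hx.trans hy.symm)
  rw [hx] at h3 h4
  have h7 : S.q v w = S.zero := htr _ _ _ hd h1 (by rw [h.qs2]; exact h2)
  have hvw' : v * w ≠ 1 := fun e => hvw (eq_of_mul h _ _ e)
  have h8 : S.q v (v * w) = S.zero := p_mul h (q_self h hn _) h7
  have h9 : S.q z (v * w) = S.zero := by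
    rw [← h.qs3, h.qs2 z, h.qs2 z]
    exact h3.trans h4.symm
  have h10 : S.q z v = S.zero := htr _ _ _ hvw' h9 (by rw [h.qs2]; exact h8)
  apply ht
  rw [← h10, h.qs2]
  exact h3.symm

/-- in an extension with `-1 = 1` the new elements are rigid -/
theorem ext_rigid {T : QData} (hT : IsQuat T) (hn : T.neg = 1) (a : T.G) (u : T.G × C2)
    (hu : (ext T).q (a, gen) u = (ext T).q (1, 1) (1, 1)) : u = 1 ∨ u = (a, gen) := by
  obtain ⟨b, β⟩ := u
  have e := congrArg Prod.snd hu
  have e' : pw (pw T.neg gen) β * pw a β * pw b gen = pw (pw T.neg 1) 1 * pw (1 : T.G) 1 * pw 1 1 := e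
  rcases C2_cases β with rfl | rfl
  · left
    simp [pw, gen_ne] at e'
    rw [e']
    rfl
  · right
    simp [pw, gen_ne, hn] at e'
    rw [eq_of_mul hT _ _ e']

/-- recognition, the other direction -/
theorem rec_mpr {S : QData} (h : IsQuat S) (h4 : 4 ≤ Nat.card S.G)
    {T : QData} (hT : IsQuat T) (hn : T.neg = 1) (hc : 2 * Nat.card T.G = Nat.card S.G)
    (hi : Iso (ext T) S) :
    ∃ t : S.Q, t ≠ S.zero ∧ (∃ a b : S.G, S.q a b = t) ∧ Indep S t := by
  obtain ⟨φ, -, hq⟩ := hi
  have hz : S.q (φ (1, 1)) (φ (1, 1)) = S.zero := by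
    have : φ (1, 1) = 1 := map_one φ
    rw [this, q_one h]
  have hz' : ∀ a b : S.G, S.q a b = S.zero ↔
      (ext T).q (φ.symm a) (φ.symm b) = (ext T).q (1, 1) (1, 1) := by
    intro a b
    rw [hq, MulEquiv.apply_symm_apply, MulEquiv.apply_symm_apply, hz]
  have hrg : ∀ a : T.G, Rg S (φ (a, gen)) := by
    intro a e he
    rw [hz', MulEquiv.symm_apply_apply] at he
    rcases ext_rigid hT hn a _ he with h1 | h1
    · left
      exact ((MulEquiv.symm_apply_eq φ).1 h1).trans (map_one φ)
    · right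
      exact (MulEquiv.symm_apply_eq φ).1 h1
  obtain ⟨y, hy⟩ : ∃ y : T.G, y ≠ 1 := by
    by_contra hcon
    push Not at hcon
    have hs : Subsingleton T.G := ⟨fun a b => (hcon a).trans (hcon b).symm⟩
    have : Nat.card T.G ≤ 1 := Finite.card_le_one_iff_subsingleton.2 hs
    omega
  have hty : ∀ (a : T.G) (b : T.G × C2), (ext T).q (a, 1) b = (ext T).q (1, gen) (y, 1) → a = y := by
    rintro a ⟨b, β⟩ e
    have e1 := congrArg Prod.snd e
    have e' : pw (pw T.neg 1) β * pw a β * pw b 1 = pw (pw T.neg gen) 1 * pw (1 : T.G) 1 * pw y gen := e1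
    rcases C2_cases β with rfl | rfl
    · simp [pw, gen_ne] at e'
      exact absurd e'.symm hy
    · simpa [pw, gen_ne] using e'
  have ht : S.q (φ (1, gen)) (φ (y, 1)) ≠ S.zero := by
    intro h1
    rcases hrg 1 _ h1 with h2 | h2
    · have h3 : ((y, 1) : T.G × C2) = 1 := by
        apply φ.injective
        rw [h2]
        exact (map_one φ).symm
      exact hy (congrArg Prod.fst h3)
    · have h3 := φ.injective h2
      exact gen_ne (congrArg Prod.snd h3).symm
  refine ⟨S.q (φ (1, gen)) (φ (y, 1)), ht, ⟨_, _, rfl⟩, ?_⟩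
  -- one slot is of the new kind
  have side : ∀ (a : T.G) (v d : S.G), φ (a, gen) ≠ v →
      (∃ w, S.q v w = S.q (φ (1, gen)) (φ (y, 1))) → S.q (φ (a, gen)) d = S.zero →
      S.q v d = S.zero → d = 1 := by
    rintro a v d hne ⟨w, hw⟩ h1 h2
    rcases hrg a d h1 with h3 | h3
    · exact h3
    · exfalso
      rw [h3, h.qs2] at h2
      rcases hrg a v h2 with h5 | h5
      · rw [h5, q_one' h] at hw
        exact ht hw.symm
      · exact hne h5.symm
  intro u v huv hu hv d hud hvd
  obtain ⟨⟨a, α⟩, rfl⟩ := φ.surjective u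
  obtain ⟨⟨b, β⟩, rfl⟩ := φ.surjective v
  rcases C2_cases α with rfl | rfl
  · rcases C2_cases β with rfl | rfl
    · exfalso
      obtain ⟨x, hx⟩ := hu
      obtain ⟨w, hw⟩ := hv
      obtain ⟨x, rfl⟩ := φ.surjective x
      obtain ⟨w, rfl⟩ := φ.surjective w
      rw [← hq] at hx hw
      rw [hty _ _ hx, hty _ _ hw] at huv
      exact huv rfl
    · exact side b _ d huv.symm hu hvd hud
  · exact side a _ d huv hv hud hvd

/-- small value groups give transitivity -/
theorem trans_of_small {S : QData} (h : IsQuat S) (hn : S.neg = 1) (hf : Finite S.G)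
    (hs : ∀ a : S.G, a ≠ 1 → {b : S.G | S.q a b = S.zero}.ncard ≤ 4) :
    ∀ a b c : S.G, b ≠ 1 → S.q a b = S.zero → S.q b c = S.zero → S.q a c = S.zero := by
  classical
  intro a b c hb hab hbc
  by_contra hac
  have hba : S.q b a = S.zero := by rw [h.qs2]; exact hab
  have ha1 : a ≠ 1 := by rintro rfl; exact hac (q_one' h c)
  have hc1 : c ≠ 1 := by rintro rfl; exact hac (q_one h a)
  have hneab : a ≠ b := by rintro rfl; exact hac hbc
  have hnebc : c ≠ b := by rintro rfl; exact hac hab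
  have hneac : c ≠ a := by rintro rfl; exact hac (q_self h hn _)
  have hab1 : a * b ≠ 1 := fun e => hneab (eq_of_mul h _ _ e)
  have haba : a * b ≠ a := by
    intro e
    rw [mul_eq_left] at e
    exact hb e
  have habb : a * b ≠ b := by
    intro e
    rw [mul_eq_right] at e
    exact ha1 e
  have habc : c ≠ a * b := by
    intro e
    apply hac
    rw [e, q_shift h _ (q_self h hn a)]
    exact hab
  have hsub : (({1, a, b, a * b, c} : Finset S.G) : Set S.G) ⊆ {d : S.G | S.q b d = S.zero} := by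
    intro d hd
    simp only [Finset.coe_insert, Finset.coe_singleton, Set.mem_insert_iff,
      Set.mem_singleton_iff] at hd
    rcases hd with rfl | rfl | rfl | rfl | rfl
    · exact q_one h b
    · exact hba
    · exact q_self h hn _
    · exact p_mul h hba (q_self h hn b)
    · exact hbc
  have hcard := Set.ncard_le_ncard hsub (Set.toFinite _)
  rw [Set.ncard_coe_finset] at hcard
  have h5 : ({1, a, b, a * b, c} : Finset S.G).card = 5 := by
    rw [Finset.card_insert_of_notMem, Finset.card_insert_of_notMem, Finset.card_insert_of_notMem,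
      Finset.card_insert_of_notMem, Finset.card_singleton]
    · simp only [Finset.mem_singleton]; exact habc.symm
    · simp only [Finset.mem_insert, Finset.mem_singleton]
      push Not
      exact ⟨habb.symm, hnebc.symm⟩
    · simp only [Finset.mem_insert, Finset.mem_singleton]
      push Not
      exact ⟨hneab, haba.symm, hneac.symm⟩
    · simp only [Finset.mem_insert, Finset.mem_singleton]
      push Not
      exact ⟨ha1.symm, hb.symm, hab1.symm, hc1.symm⟩
  have := hs b hb
  omega

end Pool.Agent.H315R3.ETC
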