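import Mathlib
import Pool.Agent.H315R3.ETC.Rec

set_option autoImplicit false

namespace Pool.Agent.H315R3.ETC

/-- the graph of `t` for arbitrary `-1` -/
def Gr' {S : QData} (h : IsQuat S) {t : S.Q} (hl : ∀ a : S.G, S.q a a ≠ t) :
    SimpleGraph (Vt S t) where
  Adj a b := S.q a.1 b.1 = t
  symm := ⟨fun a b hab => by rw [h.qs2]; exact hab⟩
  loopless := ⟨fun a ha => hl a.1 ha⟩

theorem friendship3 {S : QData} (h : IsQuat S) {t : S.Q} (hl : ∀ a : S.G, S.q a a ≠ t)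
    (hI : Indep S t) [Fintype (Vt S t)] : FT.Friendship (Gr' h hl) := by
  classical
  intro v w hvw
  rw [Fintype.card_eq_one_iff]
  obtain ⟨x, hx⟩ := v.2
  obtain ⟨y, hy⟩ := w.2
  obtain ⟨z, h1, h2⟩ := h.qs4 v.1 x w.1 y (hx.trans hy.symm)
  rw [hx] at h1
  rw [hy] at h2
  refine ⟨⟨⟨z, v.1, by rw [h.qs2]; exact h1.symm⟩, ?_⟩, ?_⟩
  · rw [SimpleGraph.mem_commonNeighbors]
    exact ⟨h1.symm, h2.symm⟩
  · rintro ⟨⟨z', hz'⟩, hz⟩
    rw [SimpleGraph.mem_commonNeighbors] at hz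
    have h3 : S.q v.1 z' = t := hz.1
    have h4 : S.q w.1 z' = t := hz.2
    have e : z' = z := by
      apply eq_of_mul h
      exact hI v.1 w.1 (fun e => hvw (Subtype.ext e)) v.2 w.2 _
        ((h.qs3 _ _ _).1 (h3.trans h1)) ((h.qs3 _ _ _).1 (h4.trans h2))
    subst e
    rfl

/-- independence without loops: all slots but at most one are rigid (any `-1`) -/
theorem rigid_slots {S : QData} (h : IsQuat S) [Finite S.G] {t : S.Q}
    (hl : ∀ a : S.G, S.q a a ≠ t) (hI : Indep S t) :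
    ∃ w : S.G, ∀ v : S.G, v ≠ w → (∃ x, S.q v x = t) →
      ∀ e : S.G, S.q v e = S.zero → e = 1 ∨ e = S.neg * v := by
  classical
  have hf : Fintype (Vt S t) := Fintype.ofFinite _
  by_cases hne : Nonempty (Vt S t)
  swap
  · refine ⟨1, fun v _ hv => ?_⟩
    exact absurd ⟨⟨v, hv⟩⟩ hne
  obtain ⟨w, hw⟩ := FT.friendship_theorem (friendship3 h hl hI)
  refine ⟨w.1, ?_⟩
  rintro v hvw hv e he
  by_contra hcon
  push Not at hcon
  have hvw' : w ≠ ⟨v, hv⟩ := fun e' => hvw (congrArg Subtype.val e').symm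
  have h1 : S.q w.1 v = t := hw ⟨v, hv⟩ hvw'
  have h1' : S.q v w.1 = t := by rw [h.qs2]; exact h1
  have h2 : S.q v (e * w.1) = t := by rw [q_shift h _ he]; exact h1'
  have h3 : S.q w.1 (e * w.1) = t := by
    refine hw ⟨e * w.1, v, by rw [h.qs2]; exact h2⟩ ?_
    intro hc
    have hc' : w.1 = e * w.1 := congrArg Subtype.val hc
    apply hcon.1
    have := mul_cancel h e w.1
    rw [← hc', h.exp2] at this
    exact this.symm
  -- the second common neighbour
  have h4 : S.q v (S.neg * v * w.1) = t := by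
    refine Eq.trans (q_shift h _ (h.qs1 v)) h1'
  have h5 : S.q w.1 (S.neg * w.1 * v) = t := by
    refine Eq.trans (q_shift h _ (h.qs1 w.1)) h1
  have h5' : S.neg * w.1 * v = S.neg * v * w.1 := by
    rw [mul_assoc, mul_comm w.1 v, ← mul_assoc]
  rw [h5'] at h5
  have h6 := hI v w.1 hvw hv w.2 _ ((h.qs3 _ _ _).1 (h2.trans h4.symm))
    ((h.qs3 _ _ _).1 (h3.trans h5.symm))
  have h7 : e * w.1 = S.neg * v * w.1 := eq_of_mul h _ _ h6
  exact hcon.2 (mul_right_cancel h7)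

end Pool.Agent.H315R3.ETC
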